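import Mathlib
import Pool.Agent.helper61.DL.Defs
import Pool.Agent.helper74.DL.PDefs

set_option autoImplicit false

/-! # Module P, part 1: determinants and linear algebra -/

namespace Pool.Agent.helper74.DL

open Finset Pool.Agent.helper61.DL

section Adet

variable {M : ℕ} {κ κ' : Type} [Fintype κ] [Fintype κ']

theorem adet_comp_equiv (e : κ ≃ κ') (w : κ' → Fin M → ℝ) : adet (fun k => w (e k)) = adet w := by
  classical
  by_cases h : Fintype.card κ' = M
  · have e' : κ' ≃ Fin M := Fintype.equivFinOfCardEq h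
    rw [adet_eq w e', adet_eq _ (e.trans e')]
    simp
  · have h' : Fintype.card κ ≠ M := by rwa [Fintype.card_congr e]
    simp [adet, h, h']

theorem adet_eq' [DecidableEq κ] (w : κ → Fin M → ℝ) (e : κ ≃ Fin M) :
    adet w = |Matrix.det (Matrix.of fun i j : κ => w i (e j))| := by
  rw [adet_eq w e]
  have h1 : (Matrix.of fun i => w (e.symm i)) =
      (Matrix.of fun i j : κ => w i (e j)).submatrix e.symm e.symm := by
    ext i j
    simp
  rw [h1, Matrix.det_submatrix_equiv_self]

theorem adet_mul [DecidableEq κ] (w g : κ → Fin M → ℝ) (e : κ ≃ Fin M) :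
    adet w * adet g = |Matrix.det (Matrix.of fun i j : κ => w i ⬝ᵥ g j)| := by
  rw [adet_eq' w e, adet_eq' g e, ← Matrix.det_transpose (Matrix.of fun i j : κ => g i (e j)),
    ← abs_mul, ← Matrix.det_mul]
  congr 2
  ext i j
  simp only [Matrix.mul_apply, Matrix.of_apply, Matrix.transpose_apply, dotProduct]
  exact Equiv.sum_comp e (fun x => w i x * g j x)

theorem adet_rowops [DecidableEq κ] (w w' : κ → Fin M → ℝ) (k₀ : κ) (c : κ → ℝ) (r : ℝ)
    (h0 : w' k₀ = r • w k₀) (h1 : ∀ k, k ≠ k₀ → w' k = w k + c k • w k₀) :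
    adet w' = |r| * adet w := by
  classical
  by_cases h : Fintype.card κ = M
  · have e : κ ≃ Fin M := Fintype.equivFinOfCardEq h
    rw [adet_eq' w' e, adet_eq' w e, ← abs_mul]
    congr 1
    have h2 : (Matrix.of fun i j : κ => w' i (e j)) =
        Matrix.updateRow (Matrix.of fun i j : κ => (if i = k₀ then w k₀ else w' i) (e j)) k₀
          (r • fun j => w k₀ (e j)) := by
      ext i j
      by_cases hi : i = k₀
      · subst hi
        simp [h0]
      · simp [hi]
    rw [h2, Matrix.det_updateRow_smul]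
    congr 1
    apply Matrix.det_eq_of_forall_row_eq_smul_add_const (fun k => if k = k₀ then 0 else c k) k₀
      (by simp)
    intro i j
    by_cases hi : i = k₀
    · subst hi
      simp
    · rw [Matrix.updateRow_ne hi]
      simp [hi, h1 i hi]
  · simp [adet, h]

/-- row operations and reindexing for the new apex -/
theorem adet_apex {ℓ n : ℕ} {ι : Type} [DecidableEq ι] (p : Fin (n + 1) → ℝ)
    (d : Fin ℓ → Fin (n + 1) → ℝ) (F : Finset ι) (v : ι) (hv : v ∉ F) (b b' : ι → Fin (n + 1) → ℝ)
    (r : ℝ) (hr : r ≠ 0) (c : ι → ℝ) (hv' : b' v = r⁻¹ • p)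
    (hF : ∀ u ∈ F, b' u = b u + c u • p) :
    adet (Sum.elim (Fin.cons p d : Fin (ℓ + 1) → Fin (n + 1) → ℝ) (fun v : {v // v ∈ F} => b v)) =
      |r| * adet (Sum.elim d (fun u : {u // u ∈ insert v F} => b' u)) := by
  classical
  let f : Fin (ℓ + 1) ⊕ {u // u ∈ F} → Fin ℓ ⊕ {u // u ∈ insert v F} :=
    Sum.elim (Fin.cons (Sum.inr ⟨v, mem_insert_self v F⟩) (fun i => Sum.inl i))
      (fun u => Sum.inr ⟨u.1, mem_insert_of_mem u.2⟩)
  have hf : Function.Bijective f := by
    constructor
    · rintro (x | x) (y | y) hxy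
      · refine congrArg Sum.inl ?_
        induction x using Fin.cases with
        | zero => 
          induction y using Fin.cases with
          | zero => rfl
          | succ y => simp [f] at hxy
        | succ x =>
          induction y using Fin.cases with
          | zero => simp [f] at hxy
          | succ y => simpa [f] using hxy
      · exfalso
        induction x using Fin.cases with
        | zero => 
          simp only [f, Sum.elim_inl, Fin.cons_zero, Sum.elim_inr, Sum.inr.injEq,
            Subtype.mk.injEq] at hxy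
          exact hv (hxy ▸ y.2)
        | succ x => simp [f] at hxy
      · exfalso
        induction y using Fin.cases with
        | zero => 
          simp only [f, Sum.elim_inl, Fin.cons_zero, Sum.elim_inr, Sum.inr.injEq,
            Subtype.mk.injEq] at hxy
          exact hv (hxy ▸ x.2)
        | succ y => simp [f] at hxy
      · simp only [f, Sum.elim_inr, Sum.inr.injEq, Subtype.mk.injEq] at hxy
        exact congrArg Sum.inr (Subtype.ext hxy)
    · rintro (x | ⟨x, hx⟩)
      · exact ⟨Sum.inl x.succ, by simp [f]⟩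
      · rcases mem_insert.1 hx with h | h
        · subst h
          exact ⟨Sum.inl 0, by simp [f]⟩
        · exact ⟨Sum.inr ⟨x, h⟩, by simp [f]⟩
  rw [← adet_comp_equiv (Equiv.ofBijective f hf)]
  have h3 : adet (fun k => Sum.elim d (fun u : {u // u ∈ insert v F} => b' u)
      (Equiv.ofBijective f hf k)) = |r⁻¹| *
      adet (Sum.elim (Fin.cons p d : Fin (ℓ + 1) → Fin (n + 1) → ℝ)
        (fun v : {v // v ∈ F} => b v)) := by
    refine adet_rowops _ _ (Sum.inl 0) (Sum.elim 0 (fun u : {u // u ∈ F} => c u)) r⁻¹ ?_ ?_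
    · simp [f, Equiv.ofBijective_apply, hv']
    · rintro (x | x) hx
      · induction x using Fin.cases with
        | zero => exact absurd rfl hx
        | succ x => simp [f, Equiv.ofBijective_apply]
      · simp [f, Equiv.ofBijective_apply, hF x.1 x.2]
  rw [h3, abs_inv, ← mul_assoc, mul_inv_cancel₀ (abs_ne_zero.2 hr), one_mul]

end Adet

section Lin

theorem dot_hv {n : ℕ} (k : Fin (n + 1) → ℝ) (h : ℝ) (v : Fin n → ℝ) :
    k ⬝ᵥ hv h v = Fin.tail k ⬝ᵥ v - k 0 * h := by
  simp [dotProduct, hv, Fin.sum_univ_succ, Fin.tail]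
  ring

theorem cons_dot {n : ℕ} (a b : ℝ) (k v : Fin n → ℝ) :
    (Fin.cons a k : Fin (n + 1) → ℝ) ⬝ᵥ (Fin.cons b v : Fin (n + 1) → ℝ) = a * b + k ⬝ᵥ v := by
  simp [dotProduct, Fin.sum_univ_succ]

theorem cons_hv {n : ℕ} (a h : ℝ) (k v : Fin n → ℝ) :
    (Fin.cons a k : Fin (n + 1) → ℝ) ⬝ᵥ hv h v = k ⬝ᵥ v - a * h := by
  rw [dot_hv]
  simp

/-- a maximal independent family orthogonal to `g` spans the orthogonal space of `g` -/
theorem mem_span_of_orth {ℓ M : ℕ} {κ : Type} [Fintype κ] [DecidableEq κ]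
    (D : Fin ℓ → Fin M → ℝ) (g b : κ → Fin M → ℝ) (hD : LinearIndependent ℝ D)
    (hb : ∀ u v, b u ⬝ᵥ g v = if u = v then 1 else 0) (hg : ∀ j v, D j ⬝ᵥ g v = 0)
    (hc : ℓ + Fintype.card κ = M) (x : Fin M → ℝ) (hx : ∀ v, x ⬝ᵥ g v = 0) :
    ∃ a : Fin ℓ → ℝ, x = ∑ j, a j • D j := by
  classical
  have key : ∀ (α : Fin ℓ → ℝ) (γ : κ → ℝ) (v : κ),
      (∑ j, α j • D j + ∑ u, γ u • b u) ⬝ᵥ g v = γ v := by
    intro α γ v
    rw [add_dotProduct, sum_dotProduct, sum_dotProduct]
    simp [smul_dotProduct, hg, hb]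
  have hli : LinearIndependent ℝ (Sum.elim D b) := by
    rw [Fintype.linearIndependent_iff]
    intro c hc0
    rw [Fintype.sum_sum_type] at hc0
    simp only [Sum.elim_inl, Sum.elim_inr] at hc0
    have h1 : ∀ v, c (Sum.inr v) = 0 := by
      intro v
      rw [← key (fun j => c (Sum.inl j)) (fun u => c (Sum.inr u)) v, hc0, zero_dotProduct]
    simp only [h1, zero_smul, Finset.sum_const_zero, add_zero] at hc0
    rw [Fintype.linearIndependent_iff] at hD
    rintro (i | i)
    · exact hD _ hc0 i
    · exact h1 i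
  have hspan : Submodule.span ℝ (Set.range (Sum.elim D b)) = ⊤ := by
    apply hli.span_eq_top_of_card_eq_finrank'
    simp [hc]
  have hx' : x ∈ Submodule.span ℝ (Set.range (Sum.elim D b)) := by rw [hspan]; trivial
  rw [Submodule.mem_span_range_iff_exists_fun] at hx'
  obtain ⟨c, hc'⟩ := hx'
  rw [Fintype.sum_sum_type] at hc'
  simp only [Sum.elim_inl, Sum.elim_inr] at hc'
  have h1 : ∀ v, c (Sum.inr v) = 0 := by
    intro v
    rw [← key (fun j => c (Sum.inl j)) (fun u => c (Sum.inr u)) v, hc', hx]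
  refine ⟨fun j => c (Sum.inl j), ?_⟩
  simp only [h1, zero_smul, Finset.sum_const_zero, add_zero] at hc'
  exact hc'.symm

end Lin

end Pool.Agent.helper74.DL
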