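import Mathlib
import Pool.Agent.helper74.DL.P1

set_option autoImplicit false

/-! # Module P, part 2: geometry of the polyhedron -/

namespace Pool.Agent.helper74.DL

open Finset Pool.Agent.helper61.DL

section Geo

variable {n : ℕ} {ι : Type} [Fintype ι] [DecidableEq ι] {V : ι → Fin n → ℝ} {h : ι → ℝ}
  {𝒱 : Finset (Finset ι)} {kk : Finset ι → Fin n → ℝ} {dd : Finset ι → ι → Fin n → ℝ}

theorem axis_dot (hP : Poly V h 𝒱 kk dd) (j : Fin n) :
    ∃ i, 0 < V i j ∧ ∀ κ : Fin n → ℝ, κ ⬝ᵥ V i = κ j * V i j := by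
  obtain ⟨i, hi, h0⟩ := hP.conv j
  refine ⟨i, hi, fun κ => ?_⟩
  rw [dotProduct]
  refine Finset.sum_eq_single j (fun b _ hb => ?_) (fun hj => absurd (mem_univ j) hj)
  rw [h0 b hb, mul_zero]

theorem rec_nonneg (hP : Poly V h 𝒱 kk dd) (κ : Fin n → ℝ) (h1 : ∀ u, 0 ≤ κ ⬝ᵥ V u) (j : Fin n) :
    0 ≤ κ j := by
  obtain ⟨i, hi, hd⟩ := axis_dot hP j
  have := h1 i
  rw [hd κ] at this
  by_contra hneg
  push Not at hneg
  nlinarith [mul_neg_of_neg_of_pos hneg hi]

theorem pt_pos (hP : Poly V h 𝒱 kk dd) (κ : Fin n → ℝ) (h1 : ∀ u, h u ≤ κ ⬝ᵥ V u) (j : Fin n) :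
    0 < κ j := by
  obtain ⟨i, hi, hd⟩ := axis_dot hP j
  have h2 := h1 i
  rw [hd κ] at h2
  have h3 := hP.h_pos i
  by_contra hneg
  push Not at hneg
  nlinarith [mul_nonpos_of_nonpos_of_nonneg hneg hi.le]

theorem rec_zero (hP : Poly V h 𝒱 kk dd) (F : Finset ι) (κ : Fin n → ℝ)
    (h1 : ∀ u, 0 ≤ κ ⬝ᵥ V u) (h2 : ∀ v ∈ F, κ ⬝ᵥ V v = 0) (h3 : ∀ i, ∃ v ∈ F, V v i ≠ 0) :
    κ = 0 := by
  funext i
  obtain ⟨v, hv, hi⟩ := h3 i
  have h4 := h2 v hv
  rw [dotProduct, Finset.sum_eq_zero_iff_of_nonneg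
    (fun j _ => mul_nonneg (rec_nonneg hP κ h1 j) (hP.V_nonneg v j))] at h4
  exact (mul_eq_zero.1 (h4 i (mem_univ i))).resolve_right hi

omit [Fintype ι] in
theorem mem_fcs {F : Finset ι} : F ∈ fcs 𝒱 ↔ ∃ Δ ∈ 𝒱, F ⊆ Δ := by
  simp [fcs]

/-- expansion in the dual basis -/
theorem dual_expand (hP : Poly V h 𝒱 kk dd) (Δ : Finset ι) (hΔ : Δ ∈ 𝒱) (κ : Fin n → ℝ) :
    κ = ∑ v ∈ Δ, (κ ⬝ᵥ V v) • dd Δ v := by
  have hli : LinearIndependent ℝ (fun v : {v // v ∈ Δ} => V v) := by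
    rw [Fintype.linearIndependent_iff]
    intro c hc v
    have h1 : dd Δ v ⬝ᵥ ∑ u : {u // u ∈ Δ}, c u • V u = 0 := by rw [hc, dotProduct_zero]
    rw [dotProduct_sum] at h1
    simp only [dotProduct_smul] at h1
    rw [Finset.sum_eq_single v] at h1
    · rw [hP.dual Δ hΔ v v.2 v v.2] at h1
      simpa using h1
    · intro u _ huv
      rw [hP.dual Δ hΔ v v.2 u u.2, if_neg (fun h => huv (Subtype.ext h.symm)), smul_zero]
    · intro hv
      exact absurd (mem_univ v) hv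
  have hspan : Submodule.span ℝ (Set.range (fun v : {v // v ∈ Δ} => V v)) = ⊤ := by
    apply hli.span_eq_top_of_card_eq_finrank'
    simp [hP.card Δ hΔ]
  set x := κ - ∑ v ∈ Δ, (κ ⬝ᵥ V v) • dd Δ v with hx
  have h1 : ∀ u ∈ Δ, x ⬝ᵥ V u = 0 := by
    intro u hu
    rw [hx, sub_dotProduct, sum_dotProduct, Finset.sum_eq_single u]
    · rw [smul_dotProduct, hP.dual Δ hΔ u hu u hu, if_pos rfl]
      simp
    · intro v hv huv
      rw [smul_dotProduct, hP.dual Δ hΔ v hv u hu, if_neg huv, smul_zero]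
    · intro hv
      exact absurd hu hv
  have h2 : ∀ y : Fin n → ℝ, x ⬝ᵥ y = 0 := by
    intro y
    have hy : y ∈ Submodule.span ℝ (Set.range (fun v : {v // v ∈ Δ} => V v)) := by
      rw [hspan]; trivial
    rw [Submodule.mem_span_range_iff_exists_fun] at hy
    obtain ⟨c, rfl⟩ := hy
    rw [dotProduct_sum]
    refine Finset.sum_eq_zero fun v _ => ?_
    rw [dotProduct_smul, h1 v v.2, smul_zero]
  have h3 : x = 0 := by
    have := h2 x
    rwa [dotProduct_self_eq_zero] at this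
  exact sub_eq_zero.1 h3

/-- membership in the cone over the face `F` -/
def InC (V : ι → Fin n → ℝ) (h : ι → ℝ) (F : Finset ι) (k : Fin (n + 1) → ℝ) : Prop :=
  (∀ u, 0 ≤ k ⬝ᵥ hv (h u) (V u)) ∧ ∀ v ∈ F, k ⬝ᵥ hv (h v) (V v) = 0

theorem vertex_hv (_ : Poly V h 𝒱 kk dd) (Δ : Finset ι) (u : ι) :
    (Fin.cons 1 (kk Δ) : Fin (n + 1) → ℝ) ⬝ᵥ hv (h u) (V u) = kk Δ ⬝ᵥ V u - h u := by
  rw [cons_hv, one_mul]

theorem vertex_inC (hP : Poly V h 𝒱 kk dd) (Δ : Finset ι) (hΔ : Δ ∈ 𝒱) (F : Finset ι)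
    (hF : F ⊆ Δ) : InC V h F (Fin.cons 1 (kk Δ)) := by
  constructor
  · intro u
    rw [vertex_hv hP]
    linarith [hP.kk_le Δ hΔ u]
  · intro v hv
    rw [vertex_hv hP, (hP.kk_eq Δ hΔ v).1 (hF hv), sub_self]

/-- a point of the cone with positive height: its active set is a face -/
theorem active_face (hP : Poly V h 𝒱 kk dd) (k : Fin (n + 1) → ℝ) (h0 : 0 < k 0)
    (h1 : ∀ u, 0 ≤ k ⬝ᵥ hv (h u) (V u)) (G : Finset ι) (hG : ∀ v ∈ G, k ⬝ᵥ hv (h v) (V v) = 0) :
    G ∈ fcs 𝒱 := by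
  have key : ∀ u, ((k 0)⁻¹ • Fin.tail k) ⬝ᵥ V u - h u = (k 0)⁻¹ * (k ⬝ᵥ hv (h u) (V u)) := by
    intro u
    rw [dot_hv, smul_dotProduct, smul_eq_mul]
    field_simp
  obtain ⟨Δ, hΔ, h2⟩ := hP.act ((k 0)⁻¹ • Fin.tail k) (fun u => by
    have h3 := key u
    have h4 : 0 ≤ (k 0)⁻¹ * (k ⬝ᵥ hv (h u) (V u)) := mul_nonneg (inv_nonneg.2 h0.le) (h1 u)
    linarith)
  rw [mem_fcs]
  refine ⟨Δ, hΔ, fun v hv => h2 v ?_⟩
  have h3 := key v
  rw [hG v hv, mul_zero] at h3
  linarith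

/-- the exit lemma -/
theorem exit_lemma (hP : Poly V h 𝒱 kk dd) (F : Finset ι) (p : Fin (n + 1) → ℝ)
    (hp : InC V h F p) (hpne : p ≠ 0)
    (hcase : p 0 = 0 ∨ (p 0 = 1 ∧ ∀ i, ∃ v ∈ F, V v i ≠ 0))
    (k : Fin (n + 1) → ℝ) (hk : InC V h F k) (hk0 : 0 < k 0) :
    (∃ t : ℝ, 0 ≤ t ∧ k = t • p) ∨ ∃ t : ℝ, 0 ≤ t ∧ ∃ u, 0 < p ⬝ᵥ hv (h u) (V u) ∧
      insert u F ∈ fcs 𝒱 ∧ InC V h (insert u F) (k - t • p) ∧ 0 < (k - t • p) 0 := by
  by_cases hU : ∃ u, 0 < p ⬝ᵥ hv (h u) (V u)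
  · -- the first facet that is hit
    obtain ⟨u₀, hu₀⟩ := hU
    obtain ⟨u, hu, hmin⟩ := Finset.exists_min_image
      ((Finset.univ : Finset ι).filter fun u => 0 < p ⬝ᵥ hv (h u) (V u))
      (fun u => (k ⬝ᵥ hv (h u) (V u)) / (p ⬝ᵥ hv (h u) (V u))) ⟨u₀, by simp [hu₀]⟩
    simp only [mem_filter, mem_univ, true_and] at hu hmin
    set t := (k ⬝ᵥ hv (h u) (V u)) / (p ⬝ᵥ hv (h u) (V u)) with ht
    have ht0 : 0 ≤ t := div_nonneg (hk.1 u) hu.le
    have hC : ∀ w, (k - t • p) ⬝ᵥ hv (h w) (V w) =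
        k ⬝ᵥ hv (h w) (V w) - t * (p ⬝ᵥ hv (h w) (V w)) := by
      intro w
      rw [sub_dotProduct, smul_dotProduct, smul_eq_mul]
    have hin : InC V h (insert u F) (k - t • p) := by
      constructor
      · intro w
        rw [hC w]
        rcases (hp.1 w).eq_or_lt with hw | hw
        · rw [← hw]
          simpa using hk.1 w
        · have := hmin w hw
          rw [le_div_iff₀ hw] at this
          linarith
      · intro v hv
        rw [hC v]
        rcases mem_insert.1 hv with hv | hv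
        · subst hv
          rw [ht, div_mul_cancel₀ _ hu.ne', sub_self]
        · rw [hk.2 v hv, hp.2 v hv]
          simp
    have h0 : (k - t • p) 0 = k 0 - t * p 0 := by simp
    rcases hcase with hc | ⟨hc, hcov⟩
    · right
      have hpos : 0 < (k - t • p) 0 := by rw [h0, hc]; simpa using hk0
      exact ⟨t, ht0, u, hu, active_face hP _ hpos hin.1 _ hin.2, hin, hpos⟩
    · rcases lt_trichotomy (k 0) t with hlt | heq | hgt
      · exfalso
        -- `k - k 0 • p` is a recession direction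
        have hz : Fin.tail (k - k 0 • p) = 0 := by
          have h00 : (k - k 0 • p) 0 = 0 := by simp [hc]
          have hd : ∀ w, Fin.tail (k - k 0 • p) ⬝ᵥ V w = 
              k ⬝ᵥ hv (h w) (V w) - k 0 * (p ⬝ᵥ hv (h w) (V w)) := by
            intro w
            have := dot_hv (k - k 0 • p) (h w) (V w)
            rw [h00, zero_mul, sub_zero] at this
            rw [← this, sub_dotProduct, smul_dotProduct, smul_eq_mul]
          apply rec_zero hP F _ _ _ hcov
          · intro w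
            rw [hd w]
            rcases (hp.1 w).eq_or_lt with hw | hw
            · rw [← hw]
              simpa using hk.1 w
            · have := hmin w hw
              rw [le_div_iff₀ hw] at this
              nlinarith
          · intro v hv
            rw [hd v, hk.2 v hv, hp.2 v hv]
            simp
        have h00 : (k - k 0 • p) 0 = 0 := by simp [hc]
        have hz2 : (k - k 0 • p) ⬝ᵥ hv (h u) (V u) = 0 := by
          rw [dot_hv, hz, h00]
          simp
        rw [sub_dotProduct, smul_dotProduct, smul_eq_mul] at hz2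
        have h5 : k ⬝ᵥ hv (h u) (V u) = t * (p ⬝ᵥ hv (h u) (V u)) := by
          rw [ht, div_mul_cancel₀ _ hu.ne']
        rw [h5] at hz2
        nlinarith
      · left
        refine ⟨t, ht0, ?_⟩
        have h00 : (k - t • p) 0 = 0 := by rw [h0, hc, heq]; simp
        have hz : Fin.tail (k - t • p) = 0 := by
          apply rec_zero hP F _ _ _ hcov
          · intro w
            have h3 := hin.1 w
            rw [dot_hv, h00] at h3
            simpa using h3
          · intro v hv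
            have h3 := hin.2 v (mem_insert_of_mem hv)
            rw [dot_hv, h00] at h3
            simpa using h3
        have hzz : k - t • p = 0 := by
          funext i
          induction i using Fin.cases with
          | zero => exact h00
          | succ i => exact congrFun hz i
        exact sub_eq_zero.1 hzz
      · right
        have hpos : 0 < (k - t • p) 0 := by rw [h0, hc]; linarith
        exact ⟨t, ht0, u, hu, active_face hP _ hpos hin.1 _ hin.2, hin, hpos⟩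
  · -- `p` lies on all the hyperplanes
    push Not at hU
    have hz : ∀ u, p ⬝ᵥ hv (h u) (V u) = 0 := fun u => le_antisymm (hU u) (hp.1 u)
    rcases hcase with hc | ⟨hc, hcov⟩
    · exfalso
      apply hpne
      funext i
      induction i using Fin.cases with
      | zero => exact hc
      | succ j =>
        obtain ⟨i, hi, hd⟩ := axis_dot hP j
        have h1 := hz i
        rw [dot_hv, hc, zero_mul, sub_zero, hd] at h1
        exact (mul_eq_zero.1 h1).resolve_right hi.ne'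
    · left
      refine ⟨k 0, hk0.le, ?_⟩
      have h00 : (k - k 0 • p) 0 = 0 := by simp [hc]
      have hd : ∀ w, Fin.tail (k - k 0 • p) ⬝ᵥ V w = k ⬝ᵥ hv (h w) (V w) := by
        intro w
        have := dot_hv (k - k 0 • p) (h w) (V w)
        rw [h00, zero_mul, sub_zero] at this
        rw [← this, sub_dotProduct, smul_dotProduct, hz w, smul_zero, sub_zero]
      have hzt : Fin.tail (k - k 0 • p) = 0 := by
        apply rec_zero hP F _ _ _ hcov
        · intro w
          rw [hd w]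
          exact hk.1 w
        · intro v hv
          rw [hd v]
          exact hk.2 v hv
      have hzz : k - k 0 • p = 0 := by
        funext i
        induction i using Fin.cases with
        | zero => exact h00
        | succ i => exact congrFun hzt i
      exact sub_eq_zero.1 hzz

/-- there is a face through which rays leave -/
theorem exists_exit (hP : Poly V h 𝒱 kk dd) (F : Finset ι) (hF : F ∈ fcs 𝒱) (hn : F.card < n)
    (p : Fin (n + 1) → ℝ) (hp : InC V h F p) (hpne : p ≠ 0)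
    (hcase : p 0 = 0 ∨ (p 0 = 1 ∧ ∀ i, ∃ v ∈ F, V v i ≠ 0)) :
    ∃ u, 0 < p ⬝ᵥ hv (h u) (V u) ∧ insert u F ∈ fcs 𝒱 ∧ ∃ k : Fin (n + 1) → ℝ,
      InC V h (insert u F) k ∧ 0 < k 0 := by
  obtain ⟨Δ, hΔ, hFΔ⟩ := mem_fcs.1 hF
  obtain ⟨v, hvΔ, hvF⟩ : ∃ v ∈ Δ, v ∉ F := by
    by_contra hcon
    push Not at hcon
    have := Finset.card_le_card (show Δ ⊆ F from hcon)
    rw [hP.card Δ hΔ] at this
    omega
  -- a second point of the face
  obtain ⟨τ, hτ0, hτ⟩ : ∃ τ : ℝ, 0 < τ ∧ ∀ u, 0 ≤ kk Δ ⬝ᵥ V u - h u + τ * (dd Δ v ⬝ᵥ V u) := by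
    have hev : ∀ᶠ τ : ℝ in nhdsWithin 0 (Set.Ioi 0), ∀ u,
        0 ≤ kk Δ ⬝ᵥ V u - h u + τ * (dd Δ v ⬝ᵥ V u) := by
      rw [Filter.eventually_all]
      intro u
      by_cases hu : u ∈ Δ
      · filter_upwards [self_mem_nhdsWithin] with τ hτ
        rw [(hP.kk_eq Δ hΔ u).1 hu, hP.dual Δ hΔ v hvΔ u hu]
        have hτ' : (0 : ℝ) < τ := hτ
        split_ifs <;> linarith
      · have h1 : 0 < kk Δ ⬝ᵥ V u - h u := by
          have h2 := hP.kk_le Δ hΔ u
          have h3 : kk Δ ⬝ᵥ V u ≠ h u := fun h4 => hu ((hP.kk_eq Δ hΔ u).2 h4)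
          have h4 : h u < kk Δ ⬝ᵥ V u := lt_of_le_of_ne h2 (Ne.symm h3)
          linarith
        have hcont : Continuous fun τ : ℝ => kk Δ ⬝ᵥ V u - h u + τ * (dd Δ v ⬝ᵥ V u) := by
          fun_prop
        have h5 : ∀ᶠ τ : ℝ in nhds 0, 0 < kk Δ ⬝ᵥ V u - h u + τ * (dd Δ v ⬝ᵥ V u) := by
          apply hcont.continuousAt.eventually_const_lt
          simpa using h1
        exact (h5.filter_mono nhdsWithin_le_nhds).mono fun τ hτ => hτ.le
    obtain ⟨τ, h1, h2⟩ := (hev.and self_mem_nhdsWithin).exists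
    exact ⟨τ, h2, h1⟩
  have hin1 := vertex_inC hP Δ hΔ F hFΔ
  have hin2 : InC V h F (Fin.cons 1 (kk Δ + τ • dd Δ v)) := by
    have hd : ∀ u, (Fin.cons 1 (kk Δ + τ • dd Δ v) : Fin (n + 1) → ℝ) ⬝ᵥ hv (h u) (V u) =
        kk Δ ⬝ᵥ V u - h u + τ * (dd Δ v ⬝ᵥ V u) := by
      intro u
      rw [cons_hv, add_dotProduct, smul_dotProduct, smul_eq_mul]
      ring
    constructor
    · intro u
      rw [hd u]
      exact hτ u
    · intro w hw
      rw [hd w, (hP.kk_eq Δ hΔ w).1 (hFΔ hw), hP.dual Δ hΔ v hvΔ w (hFΔ hw),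
        if_neg (show v ≠ w from fun hh => hvF (hh ▸ hw))]
      simp
  rcases exit_lemma hP F p hp hpne hcase _ hin1 (by simp) with ⟨t, ht, ht1⟩ | hex
  · rcases exit_lemma hP F p hp hpne hcase _ hin2 (by simp) with ⟨t', ht', ht1'⟩ | hex
    · exfalso
      have e1 := congrFun ht1 0
      have e2 := congrFun ht1' 0
      simp only [Fin.cons_zero, Pi.smul_apply, smul_eq_mul] at e1 e2
      have e3 : t = t' := by
        have hp0 : p 0 ≠ 0 := by
          intro h00
          rw [h00] at e1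
          simp at e1
        have : t * p 0 = t' * p 0 := by rw [← e1, ← e2]
        exact mul_right_cancel₀ hp0 this
      subst e3
      have e4 : kk Δ = kk Δ + τ • dd Δ v := by
        have := ht1.trans ht1'.symm
        exact (Fin.cons_inj.1 this).2
      have e5 : τ • dd Δ v = 0 := by
        have := e4.symm
        rwa [add_eq_left] at this
      have e6 : dd Δ v = 0 := (smul_eq_zero.1 e5).resolve_left hτ0.ne'
      have e7 := hP.dual Δ hΔ v hvΔ v hvΔ
      rw [e6, zero_dotProduct, if_pos rfl] at e7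
      exact zero_ne_one e7
    · obtain ⟨t, _, u, hu, hi, hin, hpos⟩ := hex
      exact ⟨u, hu, hi, _, hin, hpos⟩
  · obtain ⟨t, _, u, hu, hi, hin, hpos⟩ := hex
    exact ⟨u, hu, hi, _, hin, hpos⟩

end Geo

end Pool.Agent.helper74.DL
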