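import Mathlib
import Pool.Agent.helper74.DL.P2

set_option autoImplicit false

/-! # Module P: the starring decomposition of the cone over a face of a simple polyhedron -/

namespace Pool.Agent.helper74.DL

open Finset Pool.Agent.helper61.DL

section Dec

variable {n : ℕ} {ι : Type} [Fintype ι] [DecidableEq ι]

/-- a decomposition of the cone over the face `F` -/
structure IsDec (V : ι → Fin n → ℝ) (h : ι → ℝ) (𝒱 : Finset (Finset ι))
    (kk : Finset ι → Fin n → ℝ) (dd : Finset ι → ι → Fin n → ℝ) (F : Finset ι) {ℓ : ℕ} {β : Type}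
    [Fintype β] (D : β → Fin ℓ → Fin (n + 1) → ℝ) : Prop where
  mem : ∀ x j, InC V h F (D x j)
  pos : ∀ x j i, 0 ≤ D x j i
  ne : ∀ x j, D x j ≠ 0
  li : ∀ x, LinearIndependent ℝ (D x)
  cover : ∀ k : Fin (n + 1) → ℝ, InC V h F k → 0 < k 0 →
    ∃ x, ∃ t : Fin ℓ → ℝ, (∀ j, 0 ≤ t j) ∧ k = ∑ j, t j • D x j
  disj : ∀ x x', x ≠ x' → ∀ t t' : Fin ℓ → ℝ, (∀ j, 0 < t j) → (∀ j, 0 < t' j) →
    ∑ j, t j • D x j ≠ ∑ j, t' j • D x' j
  val : ∀ (s : ℝ) (ξ : Fin n → ℝ), 0 < s → (∀ i, 0 < ξ i) →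
    (∀ Δ ∈ 𝒱, ∀ v ∈ Δ, dd Δ v ⬝ᵥ ξ ≠ 0) →
    (∀ G ∈ fcs 𝒱, G.card < n → (∀ i, ∃ v ∈ G, V v i ≠ 0) →
      ∑ Δ ∈ 𝒱 with G ⊆ Δ, 1 / (adet (fun v : {v // v ∈ Δ} => V v) *
        ∏ v ∈ Δ \ G, dd Δ v ⬝ᵥ ξ) = 0) →
    ∀ b : ι → Fin (n + 1) → ℝ,
      (∀ u ∈ F, ∀ v ∈ F, b u ⬝ᵥ hv (h v) (V v) = if u = v then 1 else 0) →
      ∑ x, adet (Sum.elim (D x) (fun v : {v // v ∈ F} => b v)) /
        ∏ j, (D x j ⬝ᵥ (Fin.cons s ξ : Fin (n + 1) → ℝ)) = RS V 𝒱 kk dd s ξ F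

variable {V : ι → Fin n → ℝ} {h : ι → ℝ}
  {𝒱 : Finset (Finset ι)} {kk : Finset ι → Fin n → ℝ} {dd : Finset ι → ι → Fin n → ℝ}

/-- the positivity of the other functionals in the open cones of a decomposition -/
theorem open_pos (hP : Poly V h 𝒱 kk dd) (F : Finset ι) (hF : F ∈ fcs 𝒱) {ℓ : ℕ}
    (d : Fin ℓ → Fin (n + 1) → ℝ) (hc : ℓ + F.card = n + 1) (hm : ∀ j, InC V h F (d j))
    (hli : LinearIndependent ℝ d) (v : ι) (hvF : v ∉ F) (t : Fin ℓ → ℝ) (ht : ∀ j, 0 < t j) :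
    0 < (∑ j, t j • d j) ⬝ᵥ hv (h v) (V v) := by
  have h1 : (∑ j, t j • d j) ⬝ᵥ hv (h v) (V v) = ∑ j, t j * (d j ⬝ᵥ hv (h v) (V v)) := by
    rw [sum_dotProduct]
    simp [smul_dotProduct]
  rw [h1]
  apply lt_of_le_of_ne (Finset.sum_nonneg fun j _ => mul_nonneg (ht j).le ((hm j).1 v))
  intro h2
  have h3 := (Finset.sum_eq_zero_iff_of_nonneg
    (fun j _ => mul_nonneg (ht j).le ((hm j).1 v))).1 h2.symm
  have h4 : ∀ j, d j ⬝ᵥ hv (h v) (V v) = 0 := fun j =>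
    (mul_eq_zero.1 (h3 j (mem_univ j))).resolve_left (ht j).ne'
  obtain ⟨Δ, hΔ, hFΔ⟩ := mem_fcs.1 hF
  -- every vector of the common kernel of `F` is killed by `hv v`
  have key : ∀ x : Fin (n + 1) → ℝ, (∀ w ∈ F, x ⬝ᵥ hv (h w) (V w) = 0) →
      x ⬝ᵥ hv (h v) (V v) = 0 := by
    intro x hx
    obtain ⟨a, rfl⟩ := mem_span_of_orth (κ := {w // w ∈ F}) d (fun w => hv (h w) (V w))
      (fun w => Fin.cons 0 (dd Δ w)) hli
      (fun u w => by
        rw [cons_hv, zero_mul, sub_zero, hP.dual Δ hΔ u (hFΔ u.2) w (hFΔ w.2)]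
        simp only [Subtype.ext_iff])
      (fun j w => (hm j).2 w w.2) (by simpa using hc) x (fun w => hx w w.2)
    rw [sum_dotProduct]
    simp [smul_dotProduct, h4]
  by_cases hvΔ : v ∈ Δ
  · have h5 := key (Fin.cons 0 (dd Δ v)) (fun w hw => by
      rw [cons_hv, zero_mul, sub_zero, hP.dual Δ hΔ v hvΔ w (hFΔ hw),
        if_neg (show v ≠ w from fun hh => hvF (hh ▸ hw))])
    rw [cons_hv, zero_mul, sub_zero, hP.dual Δ hΔ v hvΔ v hvΔ, if_pos rfl] at h5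
    exact one_ne_zero h5
  · have h5 := key (Fin.cons 1 (kk Δ)) (fun w hw => by
      rw [vertex_hv hP, (hP.kk_eq Δ hΔ w).1 (hFΔ hw), sub_self])
    rw [vertex_hv hP] at h5
    exact hvΔ ((hP.kk_eq Δ hΔ v).2 (by linarith))

/-- the expansion of the pairing with the apex at a vertex -/
theorem apex_expand (hP : Poly V h 𝒱 kk dd) (Δ : Finset ι) (hΔ : Δ ∈ 𝒱)
    (p : Fin (n + 1) → ℝ) (s : ℝ) (ξ : Fin n → ℝ) :
    p ⬝ᵥ (Fin.cons s ξ : Fin (n + 1) → ℝ) = p 0 * (s + kk Δ ⬝ᵥ ξ) +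
      ∑ v ∈ Δ, (p ⬝ᵥ hv (h v) (V v)) * (dd Δ v ⬝ᵥ ξ) := by
  have h1 : p ⬝ᵥ (Fin.cons s ξ : Fin (n + 1) → ℝ) = p 0 * s + Fin.tail p ⬝ᵥ ξ := by
    simp [dotProduct, Fin.sum_univ_succ, Fin.tail]
  have h2 := dual_expand hP Δ hΔ (Fin.tail p - p 0 • kk Δ)
  have h3 : ∀ v ∈ Δ, (Fin.tail p - p 0 • kk Δ) ⬝ᵥ V v = p ⬝ᵥ hv (h v) (V v) := by
    intro v hv
    rw [dot_hv, sub_dotProduct, smul_dotProduct, (hP.kk_eq Δ hΔ v).1 hv, smul_eq_mul]
  have h4 : Fin.tail p ⬝ᵥ ξ = p 0 * (kk Δ ⬝ᵥ ξ) +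
      ∑ v ∈ Δ, (p ⬝ᵥ hv (h v) (V v)) * (dd Δ v ⬝ᵥ ξ) := by
    have h5 : Fin.tail p = p 0 • kk Δ + (Fin.tail p - p 0 • kk Δ) := by simp
    rw [h5, h2, add_dotProduct, sum_dotProduct, smul_dotProduct, smul_eq_mul]
    congr 1
    refine Finset.sum_congr rfl fun v hv => ?_
    rw [smul_dotProduct, smul_eq_mul, h3 v hv]
  rw [h1, h4]
  ring

/-- the recursion of the vertex sums -/
theorem RS_rec (hP : Poly V h 𝒱 kk dd) (F : Finset ι) (p : Fin (n + 1) → ℝ)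
    (hp : InC V h F p) (s : ℝ) (ξ : Fin n → ℝ) (hs : 0 < s) (hξ : ∀ i, 0 < ξ i)
    (hne : ∀ Δ ∈ 𝒱, ∀ v ∈ Δ, dd Δ v ⬝ᵥ ξ ≠ 0)
    (hX : p 0 * ∑ Δ ∈ 𝒱 with F ⊆ Δ, 1 / (adet (fun v : {v // v ∈ Δ} => V v) *
        ∏ v ∈ Δ \ F, dd Δ v ⬝ᵥ ξ) = 0) :
    (p ⬝ᵥ (Fin.cons s ξ : Fin (n + 1) → ℝ)) * RS V 𝒱 kk dd s ξ F =
      ∑ v ∈ univ \ F, (p ⬝ᵥ hv (h v) (V v)) * RS V 𝒱 kk dd s ξ (insert v F) := by
  have hsk : ∀ Δ ∈ 𝒱, s + kk Δ ⬝ᵥ ξ ≠ 0 := by
    intro Δ hΔ
    have : 0 ≤ kk Δ ⬝ᵥ ξ := by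
      rw [dotProduct]
      exact Finset.sum_nonneg fun j _ =>
        mul_nonneg (pt_pos hP _ (hP.kk_le Δ hΔ) j).le (hξ j).le
    positivity
  have h1 : (p ⬝ᵥ (Fin.cons s ξ : Fin (n + 1) → ℝ)) * RS V 𝒱 kk dd s ξ F =
      p 0 * (∑ Δ ∈ 𝒱 with F ⊆ Δ, 1 / (adet (fun v : {v // v ∈ Δ} => V v) *
        ∏ v ∈ Δ \ F, dd Δ v ⬝ᵥ ξ)) +
      ∑ Δ ∈ 𝒱 with F ⊆ Δ, ∑ v ∈ Δ \ F, (p ⬝ᵥ hv (h v) (V v)) *
        (1 / (adet (fun v : {v // v ∈ Δ} => V v) * (s + kk Δ ⬝ᵥ ξ) *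
          ∏ v ∈ Δ \ insert v F, dd Δ v ⬝ᵥ ξ)) := by
    rw [RS, Finset.mul_sum, Finset.mul_sum, ← Finset.sum_add_distrib]
    refine Finset.sum_congr rfl fun Δ hΔ => ?_
    rw [mem_filter] at hΔ
    rw [apex_expand hP Δ hΔ.1 p s ξ]
    have h2 : ∑ v ∈ Δ, (p ⬝ᵥ hv (h v) (V v)) * (dd Δ v ⬝ᵥ ξ) =
        ∑ v ∈ Δ \ F, (p ⬝ᵥ hv (h v) (V v)) * (dd Δ v ⬝ᵥ ξ) := by
      rw [← Finset.sum_sdiff hΔ.2]
      have : ∑ v ∈ F, (p ⬝ᵥ hv (h v) (V v)) * (dd Δ v ⬝ᵥ ξ) = 0 :=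
        Finset.sum_eq_zero fun v hv => by rw [hp.2 v hv, zero_mul]
      rw [this, add_zero]
    rw [h2, add_mul, Finset.sum_mul]
    have hvol : ∀ a : ℝ, a = a := fun _ => rfl
    congr 1
    · by_cases ha : adet (fun v : {v // v ∈ Δ} => V v) = 0
      · simp [ha]
      · have h3 : ∏ v ∈ Δ \ F, dd Δ v ⬝ᵥ ξ ≠ 0 :=
          Finset.prod_ne_zero_iff.2 fun v hv => hne Δ hΔ.1 v (mem_sdiff.1 hv).1
        have h4 := hsk Δ hΔ.1
        field_simp
    · refine Finset.sum_congr rfl fun v hv => ?_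
      have h5 : ∏ w ∈ Δ \ F, dd Δ w ⬝ᵥ ξ = (dd Δ v ⬝ᵥ ξ) * ∏ w ∈ Δ \ insert v F, dd Δ w ⬝ᵥ ξ := by
        rw [← Finset.mul_prod_erase _ _ hv]
        congr 2
        ext w
        simp only [mem_erase, mem_sdiff, mem_insert]
        tauto
      rw [h5]
      have h6 := hne Δ hΔ.1 v (mem_sdiff.1 hv).1
      by_cases ha : adet (fun v : {v // v ∈ Δ} => V v) = 0
      · simp [ha]
      · have h3 : ∏ w ∈ Δ \ insert v F, dd Δ w ⬝ᵥ ξ ≠ 0 :=
          Finset.prod_ne_zero_iff.2 fun v hv => hne Δ hΔ.1 v (mem_sdiff.1 hv).1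
        have h4 := hsk Δ hΔ.1
        field_simp
  rw [h1, hX, zero_add]
  simp only [RS, Finset.mul_sum]
  rw [Finset.sum_comm' (s := 𝒱.filter fun Δ => F ⊆ Δ) (t := fun Δ => Δ \ F)
    (t' := univ \ F) (s' := fun v => 𝒱.filter fun Δ => insert v F ⊆ Δ)]
  intro Δ v
  simp only [mem_filter, mem_sdiff, mem_univ, true_and, insert_subset_iff]
  tauto

/-- a face contained in no facet has vertex sum zero -/
theorem RS_eq_zero (F : Finset ι) (hF : F ∉ fcs 𝒱) (s : ℝ) (ξ : Fin n → ℝ) :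
    RS V 𝒱 kk dd s ξ F = 0 := by
  rw [RS, Finset.filter_false_of_mem, Finset.sum_empty]
  intro Δ hΔ hFΔ
  exact hF (mem_fcs.2 ⟨Δ, hΔ, hFΔ⟩)

/-- the starring step -/
theorem step (hP : Poly V h 𝒱 kk dd) (F : Finset ι) (hF : F ∈ fcs 𝒱) {ℓ : ℕ} (hℓ : 1 ≤ ℓ)
    (hc : ℓ + 1 + F.card = n + 1) (p : Fin (n + 1) → ℝ) (hp : InC V h F p) (hpn : ∀ i, 0 ≤ p i)
    (hpne : p ≠ 0) (hcase : p 0 = 0 ∨ (p 0 = 1 ∧ ∀ i, ∃ v ∈ F, V v i ≠ 0))
    (β : {v // 0 < p ⬝ᵥ hv (h v) (V v) ∧ insert v F ∈ fcs 𝒱} → Type) [∀ v, Fintype (β v)]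
    [Fintype {v // 0 < p ⬝ᵥ hv (h v) (V v) ∧ insert v F ∈ fcs 𝒱}]
    (D : ∀ v, β v → Fin ℓ → Fin (n + 1) → ℝ)
    (hD : ∀ v, IsDec V h 𝒱 kk dd (insert v.1 F) (D v)) :
    IsDec V h 𝒱 kk dd F (fun x : Σ v, β v =>
      (Fin.cons p (D x.1 x.2) : Fin (ℓ + 1) → Fin (n + 1) → ℝ)) := by
  have hvF : ∀ v, 0 < p ⬝ᵥ hv (h v) (V v) → v ∉ F := fun v hv hvF => hv.ne' (hp.2 v hvF)
  constructor
  · rintro ⟨v, x⟩ j
    induction j using Fin.cases with
    | zero => simpa using hp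
    | succ j =>
      rw [Fin.cons_succ]
      exact ⟨((hD v).mem x j).1, fun w hw => ((hD v).mem x j).2 w (mem_insert_of_mem hw)⟩
  · rintro ⟨v, x⟩ j i
    induction j using Fin.cases with
    | zero => simpa using hpn i
    | succ j => simpa using (hD v).pos x j i
  · rintro ⟨v, x⟩ j
    induction j using Fin.cases with
    | zero => simpa using hpne
    | succ j => simpa using (hD v).ne x j
  · rintro ⟨v, x⟩
    simp only
    rw [linearIndependent_finCons]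
    refine ⟨(hD v).li x, fun hmem => ?_⟩
    have h1 : ∀ y ∈ Submodule.span ℝ (Set.range (D v x)), y ⬝ᵥ hv (h v.1) (V v.1) = 0 := by
      intro y hy
      induction hy using Submodule.span_induction with
      | mem y hy =>
        obtain ⟨j, rfl⟩ := hy
        exact ((hD v).mem x j).2 v.1 (mem_insert_self _ _)
      | zero => exact zero_dotProduct _
      | add y z _ _ hy hz => rw [add_dotProduct, hy, hz, add_zero]
      | smul a y _ hy => rw [smul_dotProduct, hy, smul_zero]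
    exact v.2.1.ne' (h1 p hmem)
  · -- cover
    intro k hk hk0
    rcases exit_lemma hP F p hp hpne hcase k hk hk0 with ⟨t, ht, htk⟩ | ⟨t, ht, u, hu, hi, hin, h0⟩
    · obtain ⟨u, hu, hi, k', hk', hk0'⟩ := exists_exit hP F hF (by omega) p hp hpne hcase
      obtain ⟨x, t', ht', htk'⟩ := (hD ⟨u, hu, hi⟩).cover k' hk' hk0'
      refine ⟨⟨⟨u, hu, hi⟩, x⟩, Fin.cons t 0, fun j => ?_, ?_⟩
      · induction j using Fin.cases with
        | zero => simpa using ht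
        | succ j => simp
      · rw [Fin.sum_univ_succ]
        simp [htk]
    · obtain ⟨x, t', ht', htk'⟩ := (hD ⟨u, hu, hi⟩).cover _ hin h0
      refine ⟨⟨⟨u, hu, hi⟩, x⟩, Fin.cons t t', fun j => ?_, ?_⟩
      · induction j using Fin.cases with
        | zero => simpa using ht
        | succ j => simpa using ht' j
      · rw [Fin.sum_univ_succ]
        simp only [Fin.cons_zero, Fin.cons_succ]
        rw [← htk']
        simp
  · -- disj
    rintro ⟨v, x⟩ ⟨v', x'⟩ hne t t' ht ht' heq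
    simp only [Fin.sum_univ_succ, Fin.cons_zero, Fin.cons_succ] at heq
    by_cases hvv : v = v'
    · subst hvv
      have h1 := congrArg (fun y => y ⬝ᵥ hv (h v.1) (V v.1)) heq
      simp only [add_dotProduct, smul_dotProduct, sum_dotProduct, smul_eq_mul] at h1
      have h2 : ∀ (x : β v) (j), D v x j ⬝ᵥ hv (h v.1) (V v.1) = 0 := fun x j =>
        ((hD v).mem x j).2 v.1 (mem_insert_self _ _)
      simp only [h2, mul_zero, Finset.sum_const_zero, add_zero] at h1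
      have h3 : t 0 = t' 0 := mul_right_cancel₀ v.2.1.ne' h1
      rw [h3] at heq
      exact (hD v).disj x x' (fun hxx => hne (by rw [hxx])) (fun j => t j.succ)
        (fun j => t' j.succ) (fun j => ht _) (fun j => ht' _) (add_left_cancel heq)
    · have main : ∀ (v v' : {v // 0 < p ⬝ᵥ hv (h v) (V v) ∧ insert v F ∈ fcs 𝒱})
          (x : β v) (x' : β v') (t t' : Fin (ℓ + 1) → ℝ), (∀ j, 0 < t j) → (∀ j, 0 < t' j) →
          v ≠ v' → t 0 • p + ∑ j : Fin ℓ, t j.succ • D v x j =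
            t' 0 • p + ∑ j : Fin ℓ, t' j.succ • D v' x' j → t' 0 < t 0 := by
        intro v v' x x' t t' ht ht' hvv heq
        have h1 := congrArg (fun y => y ⬝ᵥ hv (h v.1) (V v.1)) heq
        simp only [add_dotProduct, smul_dotProduct, smul_eq_mul] at h1
        have h2 : (∑ j : Fin ℓ, t j.succ • D v x j) ⬝ᵥ hv (h v.1) (V v.1) = 0 := by
          rw [sum_dotProduct]
          refine Finset.sum_eq_zero fun j _ => ?_
          rw [smul_dotProduct, ((hD v).mem x j).2 v.1 (mem_insert_self _ _), smul_zero]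
        have h3 := open_pos hP (insert v'.1 F) v'.2.2 (D v' x')
          (by rw [Finset.card_insert_of_notMem (hvF _ v'.2.1)]; omega) ((hD v').mem x')
          ((hD v').li x') v.1 (by
            rw [mem_insert, not_or]
            exact ⟨fun hh => hvv (Subtype.ext hh), hvF _ v.2.1⟩)
          (fun j => t' j.succ) (fun j => ht' _)
        rw [h2, add_zero] at h1
        have h4 := v.2.1
        nlinarith
      exact lt_asymm (main v v' x x' t t' ht ht' hvv heq)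
        (main v' v x' x t' t ht' ht (Ne.symm hvv) heq.symm)
  · -- val
    intro s ξ hs hξ hne hlow b hb
    have hpy : 0 < p ⬝ᵥ (Fin.cons s ξ : Fin (n + 1) → ℝ) := by
      have h1 : ∀ i, 0 < (Fin.cons s ξ : Fin (n + 1) → ℝ) i := by
        intro i
        induction i using Fin.cases with
        | zero => simpa using hs
        | succ i => simpa using hξ i
      obtain ⟨i, hi⟩ : ∃ i, p i ≠ 0 := by
        by_contra hcon
        push Not at hcon
        exact hpne (funext hcon)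
      rw [dotProduct]
      exact Finset.sum_pos' (fun i _ => mul_nonneg (hpn i) (h1 i).le)
        ⟨i, mem_univ i, mul_pos (lt_of_le_of_ne (hpn i) (Ne.symm hi)) (h1 i)⟩
    have hrec := RS_rec hP F p hp s ξ hs hξ hne (by
      rcases hcase with hc0 | ⟨_, hcov⟩
      · rw [hc0, zero_mul]
      · rw [hlow F hF (by omega) hcov, mul_zero])
    have hsum : ∀ v : {v // 0 < p ⬝ᵥ hv (h v) (V v) ∧ insert v F ∈ fcs 𝒱},
        ∑ x : β v, adet (Sum.elim (Fin.cons p (D v x) : Fin (ℓ + 1) → Fin (n + 1) → ℝ)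
          (fun v : {v // v ∈ F} => b v)) /
          ∏ j, ((Fin.cons p (D v x) : Fin (ℓ + 1) → Fin (n + 1) → ℝ) j ⬝ᵥ
            (Fin.cons s ξ : Fin (n + 1) → ℝ)) =
        (p ⬝ᵥ (Fin.cons s ξ : Fin (n + 1) → ℝ))⁻¹ *
          ((p ⬝ᵥ hv (h v.1) (V v.1)) * RS V 𝒱 kk dd s ξ (insert v.1 F)) := by
      intro v
      set r := p ⬝ᵥ hv (h v.1) (V v.1) with hr
      have hr0 : 0 < r := v.2.1
      have hvnF := hvF v.1 v.2.1
      let b' : ι → Fin (n + 1) → ℝ := fun u =>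
        if u = v.1 then r⁻¹ • p else b u + (-(b u ⬝ᵥ hv (h v.1) (V v.1)) * r⁻¹) • p
      have hb' : ∀ u ∈ insert v.1 F, ∀ w ∈ insert v.1 F,
          b' u ⬝ᵥ hv (h w) (V w) = if u = w then 1 else 0 := by
        intro u hu w hw
        by_cases huv : u = v.1
        · subst huv
          simp only [b', if_pos]
          rw [smul_dotProduct, smul_eq_mul]
          by_cases hwv : w = v.1
          · subst hwv
            rw [if_pos rfl, ← hr, inv_mul_cancel₀ hr0.ne']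
          · have hwF := (mem_insert.1 hw).resolve_left hwv
            rw [hp.2 w hwF, mul_zero, if_neg (Ne.symm hwv)]
        · have huF := (mem_insert.1 hu).resolve_left huv
          simp only [b', if_neg huv]
          rw [add_dotProduct, smul_dotProduct, smul_eq_mul]
          by_cases hwv : w = v.1
          · subst hwv
            rw [if_neg huv, ← hr, mul_assoc, inv_mul_cancel₀ hr0.ne']
            ring
          · have hwF := (mem_insert.1 hw).resolve_left hwv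
            rw [hp.2 w hwF, mul_zero, add_zero, hb u huF w hwF]
      have h1 := (hD v).val s ξ hs hξ hne hlow b' hb'
      rw [← h1, Finset.mul_sum, Finset.mul_sum]
      refine Finset.sum_congr rfl fun x _ => ?_
      rw [adet_apex p (D v x) F v.1 hvnF b b' r hr0.ne'
        (fun u => -(b u ⬝ᵥ hv (h v.1) (V v.1)) * r⁻¹) (by simp [b'])
        (fun u hu => by
          have : u ≠ v.1 := fun hh => hvnF (hh ▸ hu)
          simp only [b', if_neg this])]
      rw [Fin.prod_univ_succ, abs_of_pos hr0]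
      simp only [Fin.cons_zero, Fin.cons_succ]
      rw [mul_div_mul_comm, div_eq_inv_mul r]
      ring
    rw [Fintype.sum_sigma]
    simp only [hsum]
    rw [← Finset.mul_sum]
    have hfin : ∑ v : {v // 0 < p ⬝ᵥ hv (h v) (V v) ∧ insert v F ∈ fcs 𝒱},
        (p ⬝ᵥ hv (h v.1) (V v.1)) * RS V 𝒱 kk dd s ξ (insert v.1 F) =
        ∑ v ∈ univ \ F, (p ⬝ᵥ hv (h v) (V v)) * RS V 𝒱 kk dd s ξ (insert v F) := by
      classical
      rw [← Finset.sum_subset (s₁ := univ.filter fun v => 0 < p ⬝ᵥ hv (h v) (V v) ∧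
        insert v F ∈ fcs 𝒱)]
      · rw [Finset.sum_subtype (univ.filter fun v => 0 < p ⬝ᵥ hv (h v) (V v) ∧
          insert v F ∈ fcs 𝒱) (p := fun v => 0 < p ⬝ᵥ hv (h v) (V v) ∧ insert v F ∈ fcs 𝒱)
          (by simp)]
      · intro v hv
        simp only [mem_filter, mem_univ, true_and] at hv
        simp [hvF v hv.1]
      · intro v _ hv
        simp only [mem_filter, mem_univ, true_and, not_and] at hv
        by_cases h0 : 0 < p ⬝ᵥ Pool.Agent.helper61.DL.hv (h v) (V v)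
        · rw [RS_eq_zero _ (hv h0), mul_zero]
        · have : p ⬝ᵥ Pool.Agent.helper61.DL.hv (h v) (V v) = 0 :=
            le_antisymm (not_lt.1 h0) (hp.1 v)
          rw [this, zero_mul]
    rw [hfin, ← hrec, ← mul_assoc, inv_mul_cancel₀ hpy.ne', one_mul]

/-- the base of the induction -/
theorem base (hP : Poly V h 𝒱 kk dd) (Δ : Finset ι) (hΔ : Δ ∈ 𝒱) :
    IsDec V h 𝒱 kk dd Δ (fun _ : Unit =>
      (fun _ => Fin.cons 1 (kk Δ) : Fin 1 → Fin (n + 1) → ℝ)) := by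
  have hpos := fun j => (pt_pos hP _ (hP.kk_le Δ hΔ) j)
  constructor
  · intro _ _
    exact vertex_inC hP Δ hΔ Δ subset_rfl
  · intro _ _ i
    induction i using Fin.cases with
    | zero => simp
    | succ i => simpa using (hpos i).le
  · intro _ _ h0
    have := congrFun h0 0
    simp at this
  · intro _
    rw [Fintype.linearIndependent_iff]
    intro g hg i
    have h1 := congrFun hg 0
    simp only [Finset.univ_unique, Finset.sum_singleton, Pi.smul_apply, Fin.cons_zero,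
      Pi.zero_apply, smul_eq_mul, mul_one] at h1
    rwa [Subsingleton.elim i default]
  · intro k hk hk0
    refine ⟨(), fun _ => k 0, fun _ => hk0.le, ?_⟩
    have h1 := dual_expand hP Δ hΔ (Fin.tail k - k 0 • kk Δ)
    have h2 : Fin.tail k - k 0 • kk Δ = 0 := by
      rw [h1]
      refine Finset.sum_eq_zero fun v hv => ?_
      have h3 := hk.2 v hv
      rw [dot_hv] at h3
      rw [sub_dotProduct, smul_dotProduct, (hP.kk_eq Δ hΔ v).1 hv, smul_eq_mul, h3, zero_smul]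
    funext i
    simp only [Finset.univ_unique, Finset.sum_singleton]
    induction i using Fin.cases with
    | zero => simp
    | succ i =>
      have := congrFun h2 i
      simp only [Pi.sub_apply, Fin.tail, Pi.smul_apply, smul_eq_mul, Pi.zero_apply] at this
      simp only [Pi.smul_apply, Fin.cons_succ, smul_eq_mul]
      linarith
  · intro x x' hne
    exact absurd (Subsingleton.elim x x') hne
  · intro s ξ hs hξ hne hlow b hb
    have hcard := hP.card Δ hΔ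
    have e : {v // v ∈ Δ} ≃ Fin n := Fintype.equivFinOfCardEq (by simp [hcard])
    let f : Fin 1 ⊕ {v // v ∈ Δ} → Fin (n + 1) := Sum.elim (fun _ => 0) (fun v => (e v).succ)
    have hf : Function.Bijective f := by
      constructor
      · rintro (x | x) (y | y) hxy
        · rw [Subsingleton.elim x y]
        · exact absurd hxy (Fin.succ_ne_zero _).symm
        · exact absurd hxy (Fin.succ_ne_zero _)
        · exact congrArg Sum.inr (e.injective (Fin.succ_injective _ hxy))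
      · intro y
        induction y using Fin.cases with
        | zero => exact ⟨Sum.inl 0, rfl⟩
        | succ y => exact ⟨Sum.inr (e.symm y), by simp [f]⟩
    let g : Fin 1 ⊕ {v // v ∈ Δ} → Fin (n + 1) → ℝ :=
      Sum.elim (fun _ => Fin.cons 1 0) (fun v => hv (h v) (V v))
    have h1 := adet_mul (Sum.elim (fun _ : Fin 1 => (Fin.cons 1 (kk Δ) : Fin (n + 1) → ℝ))
      (fun v : {v // v ∈ Δ} => b v)) g (Equiv.ofBijective f hf)
    have h2 : (Matrix.of fun i j : Fin 1 ⊕ {v // v ∈ Δ} =>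
        (Sum.elim (fun _ : Fin 1 => (Fin.cons 1 (kk Δ) : Fin (n + 1) → ℝ))
          (fun v : {v // v ∈ Δ} => b v)) i ⬝ᵥ g j) =
        Matrix.fromBlocks (1 : Matrix (Fin 1) (Fin 1) ℝ) 0
          (Matrix.of fun (i : {v // v ∈ Δ}) (_ : Fin 1) => b i ⬝ᵥ (Fin.cons 1 0)) 1 := by
      ext i j
      rcases i with i | i <;> rcases j with j | j
      · simp only [Matrix.of_apply, Sum.elim_inl, g, Matrix.fromBlocks_apply₁₁]
        rw [cons_dot, Subsingleton.elim i j]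
        simp
      · simp only [Matrix.of_apply, Sum.elim_inl, Sum.elim_inr, g, Matrix.fromBlocks_apply₁₂]
        rw [vertex_hv hP, (hP.kk_eq Δ hΔ j).1 j.2, sub_self]
        rfl
      · simp [g]
      · simp only [Matrix.of_apply, Sum.elim_inr, g, Matrix.fromBlocks_apply₂₂]
        rw [hb i i.2 j j.2, Matrix.one_apply]
        simp only [Subtype.ext_iff]
    rw [h2, Matrix.det_fromBlocks_zero₁₂, Matrix.det_one, Matrix.det_one, mul_one, abs_one] at h1
    have h3 : adet g = adet (fun v : {v // v ∈ Δ} => V v) := by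
      rw [adet_eq' g (Equiv.ofBijective f hf), adet_eq' _ e]
      have h4 : (Matrix.of fun i j : Fin 1 ⊕ {v // v ∈ Δ} => g i (Equiv.ofBijective f hf j)) =
          Matrix.fromBlocks (1 : Matrix (Fin 1) (Fin 1) ℝ) 0
            (Matrix.of fun (i : {v // v ∈ Δ}) (_ : Fin 1) => -(h i))
            (Matrix.of fun i j : {v // v ∈ Δ} => V i (e j)) := by
        ext i j
        rcases i with i | i <;> rcases j with j | j
        · simp [g, f, Subsingleton.elim i j]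
        · simp [g, f]
        · simp [g, f, hv]
        · simp [g, f, hv]
      rw [h4, Matrix.det_fromBlocks_zero₁₂, Matrix.det_one, one_mul]
    rw [h3] at h1
    have hRS : RS V 𝒱 kk dd s ξ Δ =
        1 / (adet (fun v : {v // v ∈ Δ} => V v) * (s + kk Δ ⬝ᵥ ξ)) := by
      rw [RS, Finset.sum_eq_single Δ]
      · simp
      · intro Δ' hΔ' hne'
        rw [mem_filter] at hΔ'
        exact absurd (Finset.eq_of_subset_of_card_le hΔ'.2
          (by rw [hP.card Δ hΔ, hP.card Δ' hΔ'.1])).symm hne'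
      · intro hnot
        exact absurd (mem_filter.2 ⟨hΔ, subset_rfl⟩) hnot
    rw [hRS]
    simp only [Finset.univ_unique, Finset.sum_singleton, Finset.prod_singleton]
    rw [cons_dot, one_mul]
    have h5 : adet (fun v : {v // v ∈ Δ} => V v) ≠ 0 := by
      intro h0
      rw [h0, mul_zero] at h1
      exact zero_ne_one h1
    rw [eq_div_of_mul_eq h5 h1, div_div]

theorem exists_dec (hP : Poly V h 𝒱 kk dd) : ∀ (ℓ : ℕ) (F : Finset ι), F ∈ fcs 𝒱 → 1 ≤ ℓ →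
    ℓ + F.card = n + 1 → ∃ (β : Type) (_ : Fintype β) (D : β → Fin ℓ → Fin (n + 1) → ℝ),
      IsDec V h 𝒱 kk dd F D := by
  classical
  intro ℓ
  induction ℓ with
  | zero => intro F _ h0; omega
  | succ ℓ ih =>
    intro F hF _ hc
    obtain ⟨Δ, hΔ, hFΔ⟩ := mem_fcs.1 hF
    rcases Nat.eq_zero_or_pos ℓ with h0 | hℓ
    · subst h0
      have hFeq : F = Δ := Finset.eq_of_subset_of_card_le hFΔ (by rw [hP.card Δ hΔ]; omega)
      subst hFeq
      exact ⟨Unit, inferInstance, _, base hP F hΔ⟩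
    · -- the apex
      obtain ⟨p, hp, hpn, hpne, hcase⟩ : ∃ p : Fin (n + 1) → ℝ, InC V h F p ∧ (∀ i, 0 ≤ p i) ∧
          p ≠ 0 ∧ (p 0 = 0 ∨ (p 0 = 1 ∧ ∀ i, ∃ v ∈ F, V v i ≠ 0)) := by
        by_cases hcov : ∀ i, ∃ v ∈ F, V v i ≠ 0
        · refine ⟨Fin.cons 1 (kk Δ), vertex_inC hP Δ hΔ F hFΔ, fun i => ?_, fun h0 => ?_,
            Or.inr ⟨by simp, hcov⟩⟩
          · induction i using Fin.cases with
            | zero => simp
            | succ i => simpa using (pt_pos hP _ (hP.kk_le Δ hΔ) i).le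
          · have := congrFun h0 0
            simp at this
        · push Not at hcov
          obtain ⟨i, hi⟩ := hcov
          have hd : ∀ u, (Fin.cons 0 (Pi.single i 1) : Fin (n + 1) → ℝ) ⬝ᵥ hv (h u) (V u) =
              V u i := by
            intro u
            rw [cons_hv]
            simp
          refine ⟨Fin.cons 0 (Pi.single i 1), ⟨fun u => ?_, fun v hv => ?_⟩, fun j => ?_,
            fun h0 => ?_, Or.inl (by simp)⟩
          · rw [hd]
            exact hP.V_nonneg u i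
          · rw [hd]
            exact hi v hv
          · induction j using Fin.cases with
            | zero => simp
            | succ j =>
              rw [Fin.cons_succ, Pi.single_apply]
              split_ifs <;> norm_num
          · have := congrFun h0 i.succ
            simp at this
      have hvF : ∀ v, 0 < p ⬝ᵥ hv (h v) (V v) → v ∉ F := fun v hv hvF => hv.ne' (hp.2 v hvF)
      have hrec : ∀ v : {v // 0 < p ⬝ᵥ hv (h v) (V v) ∧ insert v F ∈ fcs 𝒱},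
          ∃ (β : Type) (_ : Fintype β) (D : β → Fin ℓ → Fin (n + 1) → ℝ),
            IsDec V h 𝒱 kk dd (insert v.1 F) D := by
        intro v
        apply ih _ v.2.2 hℓ
        rw [Finset.card_insert_of_notMem (hvF _ v.2.1)]
        omega
      choose β hβ D hD using hrec
      exact ⟨Σ v, β v, inferInstance, _, step hP F hF hℓ (by omega) p hp hpn hpne hcase β D hD⟩

end Dec

theorem star_decomp {n : ℕ} {ι : Type} [Fintype ι] [DecidableEq ι] (V : ι → Fin n → ℝ) (h : ι → ℝ)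
    (𝒱 : Finset (Finset ι)) (kk : Finset ι → Fin n → ℝ) (dd : Finset ι → ι → Fin n → ℝ)
    (hP : Poly V h 𝒱 kk dd) : ∀ (ℓ : ℕ) (F : Finset ι), F ∈ fcs 𝒱 → 1 ≤ ℓ → ℓ + F.card = n + 1 →
    ∃ (β : Type) (_ : Fintype β) (D : β → Fin ℓ → Fin (n + 1) → ℝ),
      (∀ x j, (∀ u, 0 ≤ D x j ⬝ᵥ hv (h u) (V u)) ∧ (∀ v ∈ F, D x j ⬝ᵥ hv (h v) (V v) = 0) ∧
        (∀ i, 0 ≤ D x j i) ∧ D x j ≠ 0) ∧
      (∀ x, LinearIndependent ℝ (D x)) ∧
      (∀ k : Fin (n + 1) → ℝ, (∀ u, 0 ≤ k ⬝ᵥ hv (h u) (V u)) →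
        (∀ v ∈ F, k ⬝ᵥ hv (h v) (V v) = 0) → 0 < k 0 →
        ∃ x, ∃ t : Fin ℓ → ℝ, (∀ j, 0 ≤ t j) ∧ k = ∑ j, t j • D x j) ∧
      (∀ x x', x ≠ x' → ∀ t t' : Fin ℓ → ℝ, (∀ j, 0 < t j) → (∀ j, 0 < t' j) →
        ∑ j, t j • D x j ≠ ∑ j, t' j • D x' j) ∧
      (∀ (s : ℝ) (ξ : Fin n → ℝ), 0 < s → (∀ i, 0 < ξ i) →
        (∀ Δ ∈ 𝒱, ∀ v ∈ Δ, dd Δ v ⬝ᵥ ξ ≠ 0) →
        (∀ G ∈ fcs 𝒱, G.card < n → (∀ i, ∃ v ∈ G, V v i ≠ 0) →
          ∑ Δ ∈ 𝒱 with G ⊆ Δ, 1 / (adet (fun v : {v // v ∈ Δ} => V v) *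
            ∏ v ∈ Δ \ G, dd Δ v ⬝ᵥ ξ) = 0) →
        ∀ b : ι → Fin (n + 1) → ℝ,
          (∀ u ∈ F, ∀ v ∈ F, b u ⬝ᵥ hv (h v) (V v) = if u = v then 1 else 0) →
          ∑ x, adet (Sum.elim (D x) (fun v : {v // v ∈ F} => b v)) /
            ∏ j, (D x j ⬝ᵥ (Fin.cons s ξ : Fin (n + 1) → ℝ)) = RS V 𝒱 kk dd s ξ F) := by
  intro ℓ F hF hℓ hc
  obtain ⟨β, hβ, D, hD⟩ := exists_dec hP ℓ F hF hℓ hc
  exact ⟨β, hβ, D, fun x j => ⟨(hD.mem x j).1, (hD.mem x j).2, hD.pos x j, hD.ne x j⟩, hD.li,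
    fun k h1 h2 h3 => hD.cover k ⟨h1, h2⟩ h3, hD.disj, hD.val⟩

end Pool.Agent.helper74.DL
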